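import Pool.Agent.H367Z.LuoDefs

set_option autoImplicit false

namespace Pool.Agent.H367Z.Luo

open Equiv

theorem alt_key {A : Type} [AddCommGroup A] [Module ℝ A] (F : (Fin 4 → Fin 5) → A) :
    ∑ r : Perm (Fin 5), ((Perm.sign r : ℤ) : ℝ) •
        ∑ j : Fin 5, (-1 : ℝ) ^ (j : ℕ) • F (r ∘ j.succAbove)
      = (5 : ℝ) • ∑ k : Fin 5, (-1 : ℝ) ^ (k : ℕ) •
        ∑ p : Perm (Fin 4), ((Perm.sign p : ℤ) : ℝ) • F (k.succAbove ∘ p) := by
  have h1 : ∀ j : Fin 5, ∑ r : Perm (Fin 5), ((Perm.sign r : ℤ) : ℝ) •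
      ((-1 : ℝ) ^ (j : ℕ) • F (r ∘ j.succAbove))
      = ∑ r : Perm (Fin 5), ((Perm.sign r : ℤ) : ℝ) • F (r ∘ Fin.succ) := by
    intro j
    symm
    refine Fintype.sum_equiv (Equiv.mulRight (Fin.cycleRange j)) _ _ ?_
    intro r
    simp only [Equiv.coe_mulRight, Perm.sign_mul, Fin.sign_cycleRange, smul_smul]
    have e1 : (⇑(r * j.cycleRange) ∘ j.succAbove) = r ∘ Fin.succ := by
      funext x
      simp [Fin.cycleRange_succAbove]
    rw [e1]
    congr 1
    push_cast
    rw [mul_assoc, ← mul_pow]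
    simp
  have h2 : ∑ r : Perm (Fin 5), ((Perm.sign r : ℤ) : ℝ) • F (r ∘ Fin.succ)
      = ∑ k : Fin 5, (-1 : ℝ) ^ (k : ℕ) •
        ∑ p : Perm (Fin 4), ((Perm.sign p : ℤ) : ℝ) • F (k.succAbove ∘ p) := by
    simp only [Finset.smul_sum]
    rw [← Fintype.sum_prod_type']
    symm
    let g : Fin 5 × Perm (Fin 4) → Perm (Fin 5) := fun x =>
      (Fin.cycleRange x.1).symm * Perm.decomposeFin.symm (0, x.2)
    have hg0 : ∀ x, g x 0 = x.1 := by
      intro x
      simp [g]
    have hgs : ∀ x y, g x (Fin.succ y) = x.1.succAbove (x.2 y) := by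
      intro x y
      simp [g]
    have hinj : Function.Injective g := by
      rintro ⟨k, p⟩ ⟨k', p'⟩ h
      have e0 : k = k' := by
        have := hg0 (k, p)
        rw [h, hg0] at this
        exact this.symm
      subst e0
      have e1 : p = p' := by
        ext y
        have := hgs (k, p) y
        rw [h, hgs] at this
        exact congrArg _ (Fin.succAbove_right_injective this).symm
      rw [e1]
    have hbij : Function.Bijective g := by
      rw [Fintype.bijective_iff_injective_and_card]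
      refine ⟨hinj, ?_⟩
      simp [Fintype.card_perm, Nat.factorial]
    refine Fintype.sum_bijective g hbij _ _ ?_
    intro x
    have e1 : (g x) ∘ Fin.succ = x.1.succAbove ∘ x.2 := by
      funext y
      exact hgs x y
    rw [e1, smul_smul]
    congr 1
    simp [g, Perm.sign_mul, Fin.sign_cycleRange]
  simp only [Finset.smul_sum (s := (Finset.univ : Finset (Fin 5)))]
  rw [Finset.sum_comm]
  simp only [h1, h2]
  rw [← Finset.smul_sum, Finset.sum_const]
  simp only [Finset.card_univ, Fintype.card_fin]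
  rw [← Nat.cast_smul_eq_nsmul ℝ]
  norm_num

theorem simplexMap_comp {l m n : ℕ} (u : Fin (m + 1) → Fin (n + 1)) (v : Fin (l + 1) → Fin (m + 1)) :
    (simplexMap u).comp (simplexMap v) = simplexMap (u ∘ v) := by
  ext1 x
  exact stdSimplex.map_comp_apply v u x

variable {X : Type} [TopologicalSpace X]

/-- alternation of a singular 3-simplex -/
noncomputable def alt3 (s : C(Simplex 3, X)) : Chain X 3 :=
  ∑ p : Equiv.Perm (Fin 4),
    ((Equiv.Perm.sign p : ℤ) / 24 : ℝ) • Finsupp.single (s.comp (simplexMap p)) (1 : ℝ)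

theorem alt3_bdry (b : C(Simplex 4, X)) : ∃ c : Chain X 4,
    bdry X 3 c = ∑ k : Fin 5, (-1 : ℝ) ^ (k : ℕ) • alt3 (b.comp (simplexMap k.succAbove)) := by
  refine ⟨(1 / 120 : ℝ) • ∑ r : Perm (Fin 5), ((Perm.sign r : ℤ) : ℝ) •
    Finsupp.single (b.comp (simplexMap r)) (1 : ℝ), ?_⟩
  have key := alt_key (A := Chain X 3) (fun u => Finsupp.single (b.comp (simplexMap u)) (1 : ℝ))
  rw [map_smul, map_sum]
  have h1 : ∀ r : Perm (Fin 5), bdry X 3 (((Perm.sign r : ℤ) : ℝ) •
      Finsupp.single (b.comp (simplexMap r)) (1 : ℝ)) = ((Perm.sign r : ℤ) : ℝ) •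
        ∑ j : Fin 5, (-1 : ℝ) ^ (j : ℕ) •
          Finsupp.single (b.comp (simplexMap (r ∘ j.succAbove))) (1 : ℝ) := by
    intro r
    rw [map_smul]
    congr 1
    unfold bdry
    rw [Finsupp.linearCombination_single, one_smul]
    refine Finset.sum_congr rfl fun j _ => ?_
    rw [ContinuousMap.comp_assoc, simplexMap_comp]
  simp only [h1]
  rw [key, smul_smul, Finset.smul_sum]
  refine Finset.sum_congr rfl fun k _ => ?_
  unfold alt3
  rw [smul_comm]
  congr 1
  rw [Finset.smul_sum]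
  refine Finset.sum_congr rfl fun p _ => ?_
  rw [smul_smul, ContinuousMap.comp_assoc, simplexMap_comp]
  congr 1
  ring

theorem alt3_perm (s : C(Simplex 3, X)) (q : Perm (Fin 4)) :
    alt3 (s.comp (simplexMap q)) = ((Perm.sign q : ℤ) : ℝ) • alt3 s := by
  unfold alt3
  rw [Finset.smul_sum]
  refine Fintype.sum_equiv (Equiv.mulLeft q) _ _ ?_
  intro p
  simp only [Equiv.coe_mulLeft, Perm.sign_mul, smul_smul]
  rw [ContinuousMap.comp_assoc, simplexMap_comp]
  congr 1
  push_cast
  have : (((Perm.sign q : ℤˣ) : ℤ) : ℝ) * (((Perm.sign q : ℤˣ) : ℤ) : ℝ) = 1 := by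
    rcases Int.units_eq_one_or (Perm.sign q) with h | h <;> simp [h]
  linear_combination (-((Perm.sign p : ℤˣ) : ℤ) / 24 : ℝ) * this

theorem l1_eq {n : ℕ} (c : Chain X n) (S : Finset C(Simplex n, X)) (h : c.support ⊆ S) :
    l1 c = ∑ s ∈ S, |c s| := by
  unfold l1
  exact Finsupp.sum_of_support_subset c h _ (by simp)

theorem l1_nonneg {n : ℕ} (c : Chain X n) : 0 ≤ l1 c :=
  Finset.sum_nonneg fun _ _ => abs_nonneg _

theorem l1_add {n : ℕ} (c d : Chain X n) : l1 (c + d) ≤ l1 c + l1 d := by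
  classical
  rw [l1_eq (c + d) (c.support ∪ d.support) Finsupp.support_add,
    l1_eq c (c.support ∪ d.support) Finset.subset_union_left,
    l1_eq d (c.support ∪ d.support) Finset.subset_union_right, ← Finset.sum_add_distrib]
  exact Finset.sum_le_sum fun s _ => abs_add_le _ _

theorem l1_smul {n : ℕ} (a : ℝ) (c : Chain X n) : l1 (a • c) = |a| * l1 c := by
  rw [l1_eq (a • c) c.support Finsupp.support_smul, l1_eq c c.support (le_refl _), Finset.mul_sum]
  refine Finset.sum_congr rfl fun s _ => ?_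
  simp [abs_mul]

theorem l1_single {n : ℕ} (s : C(Simplex n, X)) : l1 (Finsupp.single s (1 : ℝ)) = 1 := by
  unfold l1
  rw [Finsupp.sum_single_index] <;> simp

theorem l1_sum {n : ℕ} {I : Type} (S : Finset I) (c : I → Chain X n) :
    l1 (∑ i ∈ S, c i) ≤ ∑ i ∈ S, l1 (c i) := by
  classical
  induction S using Finset.induction_on with
  | empty => simp [l1]
  | insert a S ha ih =>
    rw [Finset.sum_insert ha, Finset.sum_insert ha]
    exact (l1_add _ _).trans (by linarith)

theorem l1_alt3 (s : C(Simplex 3, X)) : l1 (alt3 s) ≤ 1 := by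
  unfold alt3
  refine (l1_sum _ _).trans ?_
  have h : ∀ p : Perm (Fin 4), l1 (((Equiv.Perm.sign p : ℤ) / 24 : ℝ) •
      Finsupp.single (s.comp (simplexMap p)) (1 : ℝ)) = 1 / 24 := by
    intro p
    rw [l1_smul, l1_single]
    rcases Int.units_eq_one_or (Perm.sign p) with h | h <;> simp [h, abs_div]
  simp only [h]
  simp [Fintype.card_perm, Nat.factorial]

end Pool.Agent.H367Z.Luo
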