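import Mathlib

/-!
Definitions for MP_e8da18_gt: triangulations given by face pairings, the space `W(T)` of
generalized shape parameters, its volume function, and the Gromov norm.
-/

set_option autoImplicit false

namespace Pool.Agent.H367Z.Luo

open scoped BigOperators

/-- The standard `n`-simplex, with vertices `0, …, n`. -/
abbrev Simplex (n : ℕ) : Type := stdSimplex ℝ (Fin (n + 1))

/-- A triangulation: `n` copies of the standard tetrahedron, each oriented by the vertex order
`0, 1, 2, 3`, with faces glued in pairs.  Face `f` (the face opposite to vertex `f`) of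
tetrahedron `i` is glued to face `glue i f f` of tetrahedron `nbr i f` by the affine map that
sends vertex `k` to vertex `glue i f k`.  This map reverses the boundary orientations of the faces
exactly when the permutation `glue i f` is odd. -/
structure Triangulation where
  n : ℕ
  nbr : Fin n → Fin 4 → Fin n
  glue : Fin n → Fin 4 → Equiv.Perm (Fin 4)
  nbr_nbr : ∀ i f, nbr (nbr i f) (glue i f f) = i
  glue_glue : ∀ i f, glue (nbr i f) (glue i f f) = (glue i f)⁻¹
  not_self : ∀ i f, ¬ (nbr i f = i ∧ glue i f f = f)
  odd : ∀ i f, Equiv.Perm.sign (glue i f) = -1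

namespace Triangulation

variable (T : Triangulation)

/-- The face identifications on the disjoint union of the tetrahedra. -/
def Glued (x y : Fin T.n × Simplex 3) : Prop :=
  ∃ f : Fin 4, x.2 f = 0 ∧ y.1 = T.nbr x.1 f ∧ y.2 = stdSimplex.map (T.glue x.1 f) x.2

/-- The quotient space `M` of the triangulation (quotient topology). -/
abbrev Space : Type := Quot T.Glued

/-- The edges of the standard tetrahedron: two-element sets of vertices. -/
abbrev TetEdge : Type := {s : Finset (Fin 4) // s.card = 2}

/-- The face identifications on the edges of the unglued tetrahedra. -/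
def EdgeGlued (x y : Fin T.n × TetEdge) : Prop :=
  ∃ f : Fin 4, f ∉ x.2.1 ∧ y.1 = T.nbr x.1 f ∧ y.2.1 = x.2.1.map (T.glue x.1 f).toEmbedding

/-- The set `E` of edges of the triangulation. -/
abbrev Edge : Type := Quot T.EdgeGlued

/-- The normal quadrilaterals: `(i, k)` is the quadrilateral in tetrahedron `i` that separates
the edge `{0, k+1}` from its opposite edge. -/
abbrev Quad : Type := Fin T.n × Fin 3

/-- The edges of the standard tetrahedron disjoint from quadrilateral `k` are `{0, k+1}` and its
opposite edge. -/
def DisjointFromQuad (k : Fin 3) (s : TetEdge) : Prop :=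
  s.1 = {0, k.succ} ∨ s.1 = {0, k.succ}ᶜ

open Classical in
/-- `i(e, q)`: the number of edges of the unglued tetrahedron containing `q` that are disjoint
from `q` and map to `e`. -/
noncomputable def idx (e : T.Edge) (q : T.Quad) : ℕ :=
  (Finset.univ.filter fun s : TetEdge =>
    DisjointFromQuad q.2 s ∧ Quot.mk T.EdgeGlued (q.1, s) = e).card

/-- `W(T)`.  The orientation orders the three quadrilaterals of each tetrahedron cyclically as
`(i, k) → (i, k + c)`; the two possible conventions are `c = 1` and `c = 2`. -/
def W (c : Fin 3) : Set (T.Quad → ℂ) :=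
  {z | (∀ q : T.Quad, z (q.1, q.2 + c) = 1 / (1 - z q)) ∧
    ∀ e : T.Edge, ∃ r : ℝ, 0 < r ∧ ∏ q : T.Quad, z q ^ T.idx e q = (r : ℂ)}

end Triangulation

/-- The Lobachevsky function. -/
noncomputable def lob (t : ℝ) : ℝ := -∫ s in (0 : ℝ)..t, Real.log |2 * Real.sin s|

/-- The volume of generalized shape parameters. -/
noncomputable def vol {T : Triangulation} (z : T.Quad → ℂ) : ℝ := ∑ q, lob (Complex.arg (z q))

/-- The volume `3 Λ(π/3) = 1.01494…` of the regular ideal hyperbolic tetrahedron. -/
noncomputable def v3 : ℝ := 3 * lob (Real.pi / 3)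

/-- Real singular `n`-chains of a space `X`. -/
abbrev Chain (X : Type) [TopologicalSpace X] (n : ℕ) : Type := C(Simplex n, X) →₀ ℝ

/-- The affine map of standard simplices induced by a map of vertices. -/
noncomputable def simplexMap {m n : ℕ} (u : Fin (m + 1) → Fin (n + 1)) : C(Simplex m, Simplex n) :=
  ⟨stdSimplex.map u, stdSimplex.continuous_map u⟩

/-- The singular boundary operator. -/
noncomputable def bdry (X : Type) [TopologicalSpace X] (n : ℕ) :
    Chain X (n + 1) →ₗ[ℝ] Chain X n :=
  Finsupp.linearCombination ℝ fun σ : C(Simplex (n + 1), X) =>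
    ∑ j : Fin (n + 2), (-1 : ℝ) ^ (j : ℕ) • Finsupp.single (σ.comp (simplexMap j.succAbove)) (1 : ℝ)

/-- The `ℓ¹` norm of a singular chain. -/
noncomputable def l1 {X : Type} [TopologicalSpace X] {n : ℕ} (c : Chain X n) : ℝ :=
  c.sum fun _ a => |a|

/-- The characteristic map of tetrahedron `i`. -/
def Triangulation.chi (T : Triangulation) (i : Fin T.n) : C(Simplex 3, T.Space) :=
  ⟨fun t => Quot.mk T.Glued (i, t), continuous_quot_mk.comp (Continuous.prodMk_right i)⟩

/-- The fundamental cycle of the oriented triangulation: the sum of its tetrahedra, each one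
averaged with signs over the `24` orderings of its vertices.  It represents the real fundamental
class of `M`. -/
noncomputable def Triangulation.fundCycle (T : Triangulation) : Chain T.Space 3 :=
  ∑ i : Fin T.n, ∑ p : Equiv.Perm (Fin 4),
    ((Equiv.Perm.sign p : ℤ) / 24 : ℝ) • Finsupp.single ((T.chi i).comp (simplexMap p)) (1 : ℝ)

/-- The Gromov norm (simplicial volume) of `M`: the infimum of the `ℓ¹` norms of the real
singular cycles homologous to the fundamental cycle. -/
noncomputable def Triangulation.gromovNorm (T : Triangulation) : ℝ :=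
  sInf {r : ℝ | ∃ b : Chain T.Space 4, r = l1 (T.fundCycle + bdry T.Space 3 b)}

end Pool.Agent.H367Z.Luo
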