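import Pool.Agent.H367Z.LuoAlt

set_option autoImplicit false

namespace Pool.Agent.H367Z.Luo

open Equiv

def lab : Fin 8 → Fin 4 → Fin 6 :=
  ![![1, 4, 2, 3], ![4, 0, 2, 3], ![0, 4, 1, 3], ![4, 0, 1, 2], ![5, 1, 2, 3], ![0, 5, 2, 3],
    ![5, 0, 1, 3], ![0, 5, 1, 2]]

def nb : Fin 8 → Fin 4 → Fin 8 :=
  ![![1, 4, 2, 3], ![5, 0, 2, 3], ![0, 6, 1, 3], ![7, 0, 1, 2], ![0, 5, 6, 7], ![4, 1, 6, 7],
    ![2, 4, 5, 7], ![4, 3, 5, 6]]

def gf : Fin 8 → Fin 4 → Fin 4 → Fin 4 :=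
  ![![![1, 0, 2, 3], ![1, 0, 2, 3], ![2, 1, 0, 3], ![2, 0, 3, 1]],
    ![![1, 0, 2, 3], ![1, 0, 2, 3], ![1, 0, 2, 3], ![0, 1, 3, 2]],
    ![![2, 1, 0, 3], ![1, 0, 2, 3], ![1, 0, 2, 3], ![1, 0, 2, 3]],
    ![![1, 0, 2, 3], ![1, 3, 0, 2], ![0, 1, 3, 2], ![1, 0, 2, 3]],
    ![![1, 0, 2, 3], ![1, 0, 2, 3], ![0, 2, 1, 3], ![1, 2, 3, 0]],
    ![![1, 0, 2, 3], ![1, 0, 2, 3], ![1, 0, 2, 3], ![0, 1, 3, 2]],
    ![![1, 0, 2, 3], ![0, 2, 1, 3], ![1, 0, 2, 3], ![1, 0, 2, 3]],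
    ![![3, 0, 1, 2], ![1, 0, 2, 3], ![0, 1, 3, 2], ![1, 0, 2, 3]]]

def gi : Fin 8 → Fin 4 → Fin 4 → Fin 4 :=
  ![![![1, 0, 2, 3], ![1, 0, 2, 3], ![2, 1, 0, 3], ![1, 3, 0, 2]],
    ![![1, 0, 2, 3], ![1, 0, 2, 3], ![1, 0, 2, 3], ![0, 1, 3, 2]],
    ![![2, 1, 0, 3], ![1, 0, 2, 3], ![1, 0, 2, 3], ![1, 0, 2, 3]],
    ![![1, 0, 2, 3], ![2, 0, 3, 1], ![0, 1, 3, 2], ![1, 0, 2, 3]],
    ![![1, 0, 2, 3], ![1, 0, 2, 3], ![0, 2, 1, 3], ![3, 0, 1, 2]],
    ![![1, 0, 2, 3], ![1, 0, 2, 3], ![1, 0, 2, 3], ![0, 1, 3, 2]],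
    ![![1, 0, 2, 3], ![0, 2, 1, 3], ![1, 0, 2, 3], ![1, 0, 2, 3]],
    ![![1, 2, 3, 0], ![1, 0, 2, 3], ![0, 1, 3, 2], ![1, 0, 2, 3]]]

theorem gi_gf : ∀ i f k, gi i f (gf i f k) = k := by decide
theorem gf_gi : ∀ i f k, gf i f (gi i f k) = k := by decide

def gl (i : Fin 8) (f : Fin 4) : Perm (Fin 4) := ⟨gf i f, gi i f, gi_gf i f, gf_gi i f⟩

theorem gf_gf : ∀ i f k, gf (nb i f) (gf i f f) k = gi i f k := by decide

theorem gl_odd : ∀ i f, Perm.sign (gl i f) = -1 := by decide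

/-- the suspension of the boundary of a tetrahedron -/
@[reducible] def T8 : Triangulation where
  n := 8
  nbr := nb
  glue := gl
  nbr_nbr := by decide
  glue_glue := fun i f => Equiv.ext fun k => gf_gf i f k
  not_self := by decide
  odd := gl_odd

theorem lab_inj : ∀ i k l, lab i k = lab i l → k = l := by decide

theorem lab_glue : ∀ i f k, k ≠ f → lab (nb i f) (gf i f k) = lab i k := by decide

theorem conn : ∀ i j : Fin 8, i = j ∨ (∃ f, (∀ k, lab j k ≠ lab i f) ∧ nb i f = j) ∨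
    (∃ f f', (∀ k, lab j k ≠ lab i f) ∧ (∀ k, lab j k ≠ lab (nb i f) f') ∧
      nb (nb i f) f' = j) := by decide

theorem map_apply {m n : ℕ} (u : Fin m → Fin n) (t : stdSimplex ℝ (Fin m)) (y : Fin n) :
    stdSimplex.map u t y = ∑ x, if u x = y then t x else 0 := by
  rw [stdSimplex.map_coe, FunOnFinite.linearMap_apply_apply, Finset.sum_filter]

theorem map_congr {m n : ℕ} (u v : Fin m → Fin n) (t : stdSimplex ℝ (Fin m))
    (h : ∀ k, u k ≠ v k → t k = 0) : stdSimplex.map u t = stdSimplex.map v t := by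
  ext y
  rw [map_apply, map_apply]
  refine Finset.sum_congr rfl fun x _ => ?_
  by_cases hx : u x = v x
  · rw [hx]
  · rw [h x hx]
    simp

theorem map_zero_of {m n : ℕ} (u : Fin m → Fin n) (t : stdSimplex ℝ (Fin m)) (y : Fin n)
    (h : ∀ k, u k ≠ y) : stdSimplex.map u t y = 0 := by
  rw [map_apply]
  exact Finset.sum_eq_zero fun x _ => if_neg (h x)

theorem map_inj_apply {m n : ℕ} (u : Fin m → Fin n) (hu : ∀ k l, u k = u l → k = l)
    (t : stdSimplex ℝ (Fin m)) (k : Fin m) : stdSimplex.map u t (u k) = t k := by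
  rw [map_apply, Finset.sum_eq_single k]
  · simp
  · intro b _ hb
    exact if_neg fun h => hb (hu _ _ h)
  · simp

/-- global barycentric coordinates -/
noncomputable def bar (x : Fin 8 × Simplex 3) : stdSimplex ℝ (Fin 6) :=
  stdSimplex.map (lab x.1) x.2

theorem bar_glue (i : Fin 8) (t : Simplex 3) (f : Fin 4) (h : t f = 0) :
    bar (nb i f, stdSimplex.map (gl i f) t) = bar (i, t) := by
  unfold bar
  rw [stdSimplex.map_comp_apply]
  apply map_congr
  intro k hk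
  by_cases hkf : k = f
  · rw [hkf, h]
  · exact (hk (lab_glue i f k hkf)).elim

theorem bar_step {i j : Fin 8} {t s : Simplex 3} (h : bar (i, t) = bar (j, s)) {f : Fin 4}
    (hf : ∀ k, lab j k ≠ lab i f) : t f = 0 := by
  have h1 : bar (i, t) (lab i f) = t f := map_inj_apply _ (lab_inj i) t f
  have h2 : bar (j, s) (lab i f) = 0 := map_zero_of _ s _ hf
  rw [← h1, h, h2]

theorem bar_same {i : Fin 8} {t s : Simplex 3} (h : bar (i, t) = bar (i, s)) : t = s := by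
  ext k
  have h1 : bar (i, t) (lab i k) = t k := map_inj_apply _ (lab_inj i) t k
  have h2 : bar (i, s) (lab i k) = s k := map_inj_apply _ (lab_inj i) s k
  rw [← h1, h, h2]

theorem mk_step (i : Fin 8) (t : Simplex 3) (f : Fin 4) (h : t f = 0) :
    Quot.mk T8.Glued (i, t) = Quot.mk T8.Glued (nb i f, stdSimplex.map (gl i f) t) :=
  Quot.sound ⟨f, h, rfl, rfl⟩

theorem mk_eq_of_bar {x y : Fin 8 × Simplex 3} (h : bar x = bar y) :
    Quot.mk T8.Glued x = Quot.mk T8.Glued y := by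
  obtain ⟨i, t⟩ := x
  obtain ⟨j, s⟩ := y
  rcases conn i j with rfl | ⟨f, hf, rfl⟩ | ⟨f, f', hf, hf', rfl⟩
  · rw [bar_same h]
  · have h0 := bar_step h hf
    rw [mk_step i t f h0, bar_same ((bar_glue i t f h0).trans h)]
  · have h0 := bar_step h hf
    have h1 := (bar_glue i t f h0).trans h
    have h2 := bar_step h1 hf'
    rw [mk_step i t f h0, mk_step _ _ f' h2, bar_same ((bar_glue _ _ f' h2).trans h1)]

abbrev E4 : Type := EuclideanSpace ℝ (Fin 4)

/-- the cone map -/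
noncomputable def geo (w : Fin 6 → ℝ) (b : ℝ) : E4 :=
  !₂[w 0 - w 3, w 1 - w 3, w 2 - w 3, w 4 - w 5 + b]

def Good (w : Fin 6 → ℝ) : Prop :=
  (w 4 = 0 ∨ w 5 = 0) ∧ (w 0 = 0 ∨ w 1 = 0 ∨ w 2 = 0 ∨ w 3 = 0)

theorem lab_miss : ∀ i, ((∀ k, lab i k ≠ 4) ∨ (∀ k, lab i k ≠ 5)) ∧
    ((∀ k, lab i k ≠ 0) ∨ (∀ k, lab i k ≠ 1) ∨ (∀ k, lab i k ≠ 2) ∨ (∀ k, lab i k ≠ 3)) := by
  decide

theorem good_bar (x : Fin 8 × Simplex 3) : Good (bar x) := by
  obtain ⟨h1, h2⟩ := lab_miss x.1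
  refine ⟨h1.imp (map_zero_of _ _ _) (map_zero_of _ _ _), h2.imp (map_zero_of _ _ _) ?_⟩
  exact Or.imp (map_zero_of _ _ _) (Or.imp (map_zero_of _ _ _) (map_zero_of _ _ _))

theorem geo_inj {w w' : Fin 6 → ℝ} (h0 : ∀ y, 0 ≤ w y) (h0' : ∀ y, 0 ≤ w' y) (hg : Good w)
    (hg' : Good w') (h : geo w 0 = geo w' 0) : w = w' := by
  have e0 : w 0 - w 3 = w' 0 - w' 3 := by simpa [geo] using congrArg (fun v : E4 => v 0) h
  have e1 : w 1 - w 3 = w' 1 - w' 3 := by simpa [geo] using congrArg (fun v : E4 => v 1) h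
  have e2 : w 2 - w 3 = w' 2 - w' 3 := by simpa [geo] using congrArg (fun v : E4 => v 2) h
  have e3 : w 4 - w 5 = w' 4 - w' 5 := by simpa [geo] using congrArg (fun v : E4 => v 3) h
  have a0 := h0 0
  have a1 := h0 1
  have a2 := h0 2
  have a3 := h0 3
  have a4 := h0 4
  have a5 := h0 5
  have b0 := h0' 0
  have b1 := h0' 1
  have b2 := h0' 2
  have b3 := h0' 3
  have b4 := h0' 4
  have b5 := h0' 5
  have c3 : w 3 = w' 3 := by
    rcases hg.2 with p | p | p | p <;> rcases hg'.2 with q | q | q | q <;> linarith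
  have c5 : w 5 = w' 5 := by
    rcases hg.1 with p | p <;> rcases hg'.1 with q | q <;> linarith
  funext y
  fin_cases y
  · show w 0 = w' 0
    linarith
  · show w 1 = w' 1
    linarith
  · show w 2 = w' 2
    linarith
  · exact c3
  · show w 4 = w' 4
    linarith
  · exact c5

theorem geo_smul (c : ℝ) (w : Fin 6 → ℝ) : geo (fun y => c * w y) 0 = c • geo w 0 := by
  ext k
  fin_cases k <;> simp [geo] <;> ring

theorem good_smul (c : ℝ) {w : Fin 6 → ℝ} (h : Good w) : Good (fun y => c * w y) := by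
  obtain ⟨h1, h2⟩ := h
  constructor
  · rcases h1 with p | p <;> simp [p]
  · rcases h2 with p | p | p | p <;> simp [p]

theorem geo_ne (w : stdSimplex ℝ (Fin 6)) (hg : Good w) : geo w 0 ≠ 0 := by
  intro h
  have h1 : geo w 0 = geo (fun _ => 0) 0 := by
    rw [h]
    ext k
    fin_cases k <;> simp [geo]
  have h2 := geo_inj (stdSimplex.zero_le w) (fun _ => le_refl _) hg (by simp [Good]) h1
  have h3 := stdSimplex.sum_eq_one w
  rw [h2] at h3
  simp at h3

abbrev S3 : Type := Metric.sphere (0 : E4) 1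

noncomputable def nrm (v : E4) (h : v ≠ 0) : S3 :=
  ⟨‖v‖⁻¹ • v, by simp [norm_smul, inv_mul_cancel₀ (norm_ne_zero_iff.2 h)]⟩

theorem cont_nrm {Y : Type} [TopologicalSpace Y] {g : Y → E4} (hg : Continuous g)
    (h : ∀ y, g y ≠ 0) : Continuous fun y => nrm (g y) (h y) := by
  refine Continuous.subtype_mk ?_ _
  exact (hg.norm.inv₀ fun y => norm_ne_zero_iff.2 (h y)).smul hg

theorem cont_geo {Y : Type} [TopologicalSpace Y] {w : Y → stdSimplex ℝ (Fin 6)} {b : Y → ℝ}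
    (hw : Continuous w) (hb : Continuous b) : Continuous fun y => geo (w y) (b y) := by
  have h : ∀ k, Continuous fun y => w y k := fun k =>
    (continuous_apply k).comp (continuous_subtype_val.comp hw)
  unfold geo
  refine (PiLp.continuous_toLp 2 _).comp ?_
  refine continuous_pi fun k => ?_
  have := h 0
  have := h 1
  have := h 2
  have := h 3
  have := h 4
  have := h 5
  fin_cases k <;> simp <;> fun_prop

theorem cont_bar : Continuous bar := by
  refine continuous_prod_of_discrete_left.2 fun i => ?_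
  exact stdSimplex.continuous_map (lab i)

noncomputable def toS : T8.Space → S3 :=
  Quot.lift (fun x => nrm (geo (bar x) 0) (geo_ne _ (good_bar x))) (by
    rintro ⟨i, t⟩ ⟨j, s⟩ ⟨f, h0, h1, h2⟩
    have h3 : bar (j, s) = bar (i, t) := by
      have e1 : j = nb i f := h1
      have e2 : s = stdSimplex.map (gl i f) t := h2
      rw [e1, e2]
      exact bar_glue i t f h0
    simp only [h3])

theorem cont_toS : Continuous toS :=
  continuous_quot_lift _ (cont_nrm (cont_geo cont_bar continuous_const) _)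

theorem toS_inj : Function.Injective toS := by
  rintro ⟨x⟩ ⟨y⟩ h
  apply mk_eq_of_bar
  have h1 : ‖geo (bar x) 0‖⁻¹ • geo (bar x) 0 = ‖geo (bar y) 0‖⁻¹ • geo (bar y) 0 :=
    congrArg Subtype.val h
  have hx : 0 < ‖geo (bar x) 0‖⁻¹ := inv_pos.2 (norm_pos_iff.2 (geo_ne _ (good_bar x)))
  have hy : 0 < ‖geo (bar y) 0‖⁻¹ := inv_pos.2 (norm_pos_iff.2 (geo_ne _ (good_bar y)))
  rw [← geo_smul, ← geo_smul] at h1
  have h2 := geo_inj (fun k => mul_nonneg hx.le (stdSimplex.zero_le (bar x) k))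
    (fun k => mul_nonneg hy.le (stdSimplex.zero_le (bar y) k)) (good_smul _ (good_bar x))
    (good_smul _ (good_bar y)) h1
  have h3 : ‖geo (bar x) 0‖⁻¹ = ‖geo (bar y) 0‖⁻¹ := by
    have h4 := congrArg (fun w : Fin 6 → ℝ => ∑ k, w k) h2
    simpa [← Finset.mul_sum] using h4
  ext k
  have h5 := congrFun h2 k
  simp only [h3] at h5
  exact mul_left_cancel₀ hy.ne' h5

theorem lab_cover : ∀ (a : Fin 6) (b : Fin 6), (a = 4 ∨ a = 5) → (b = 0 ∨ b = 1 ∨ b = 2 ∨ b = 3) →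
    ∃ i, ∀ y, y = a ∨ y = b ∨ ∃ k, lab i k = y := by decide

theorem lab_cover' : ∀ (a : Fin 6) (b : Fin 6), (a = 4 ∨ a = 5) → (b = 0 ∨ b = 1 ∨ b = 2 ∨ b = 3) →
    ∃ i, Finset.univ.image (lab i) = (Finset.univ.erase a).erase b := by decide

theorem exists_bar (w : stdSimplex ℝ (Fin 6)) (hg : Good w) : ∃ x, bar x = w := by
  obtain ⟨a, ha, ha0⟩ : ∃ a : Fin 6, (a = 4 ∨ a = 5) ∧ w a = 0 := by
    rcases hg.1 with p | p
    · exact ⟨4, by simp, p⟩
    · exact ⟨5, by simp, p⟩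
  obtain ⟨b, hb, hb0⟩ : ∃ b : Fin 6, (b = 0 ∨ b = 1 ∨ b = 2 ∨ b = 3) ∧ w b = 0 := by
    rcases hg.2 with p | p | p | p
    · exact ⟨0, by simp, p⟩
    · exact ⟨1, by simp, p⟩
    · exact ⟨2, by simp, p⟩
    · exact ⟨3, by simp, p⟩
  obtain ⟨i, hi⟩ := lab_cover' a b ha hb
  have hs : ∑ k, w (lab i k) = 1 := by
    rw [← Finset.sum_image (s := Finset.univ) (g := lab i) (f := fun y => w y)
      (fun k _ l _ h => lab_inj i k l h), hi, Finset.sum_erase _ hb0, Finset.sum_erase _ ha0]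
    exact stdSimplex.sum_eq_one w
  refine ⟨(i, ⟨fun k => w (lab i k), fun k => stdSimplex.zero_le w _, hs⟩), ?_⟩
  ext y
  by_cases hy : ∃ k, lab i k = y
  · obtain ⟨k, rfl⟩ := hy
    exact map_inj_apply _ (lab_inj i) _ k
  · have h1 : y ∉ Finset.univ.image (lab i) := by simpa using hy
    rw [hi] at h1
    have h2 : w y = 0 := by
      by_cases e1 : y = b
      · rw [e1, hb0]
      · by_cases e2 : y = a
        · rw [e2, ha0]
        · exact (h1 (by simp [e1, e2])).elim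
    rw [h2]
    exact map_zero_of _ _ _ (fun k hk => hy ⟨k, hk⟩)

theorem toS_surj : Function.Surjective toS := by
  rintro ⟨v, hv⟩
  have hv1 : ‖v‖ = 1 := by simpa using hv
  set m : ℝ := min (min (v 0) (v 1)) (min (v 2) 0) with hm
  have m0 : m ≤ v 0 := (min_le_left _ _).trans (min_le_left _ _)
  have m1 : m ≤ v 1 := (min_le_left _ _).trans (min_le_right _ _)
  have m2 : m ≤ v 2 := (min_le_right _ _).trans (min_le_left _ _)
  have m3 : m ≤ 0 := (min_le_right _ _).trans (min_le_right _ _)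
  have mc : m = v 0 ∨ m = v 1 ∨ m = v 2 ∨ m = 0 := by
    rcases min_choice (min (v 0) (v 1)) (min (v 2) 0) with p | p
    · rcases min_choice (v 0) (v 1) with q | q
      · exact Or.inl (by rw [hm, p, q])
      · exact Or.inr (Or.inl (by rw [hm, p, q]))
    · rcases min_choice (v 2) 0 with q | q
      · exact Or.inr (Or.inr (Or.inl (by rw [hm, p, q])))
      · exact Or.inr (Or.inr (Or.inr (by rw [hm, p, q])))
  let u : Fin 6 → ℝ := ![v 0 - m, v 1 - m, v 2 - m, -m, max (v 3) 0, max (-v 3) 0]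
  have u0 : ∀ y, 0 ≤ u y := by
    intro y
    fin_cases y <;> simp [u] <;> linarith
  have ug : Good u := by
    constructor
    · rcases le_total (v 3) 0 with p | p
      · left
        simp [u, p]
      · right
        simp [u, p]
    · rcases mc with p | p | p | p
      · simp [u, ← p]
      · simp [u, ← p]
      · simp [u, ← p]
      · right; right; right
        show -m = 0
        rw [p, neg_zero]
  have ue : geo u 0 = v := by
    ext k
    fin_cases k
    · simp [geo, u]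
    · simp [geo, u]
    · simp [geo, u]
    · rcases le_total (v 3) 0 with p | p <;> simp [geo, u, p]
  have us : 0 < ∑ y, u y := by
    rcases (Finset.sum_nonneg fun y _ => u0 y : 0 ≤ ∑ y, u y).lt_or_eq with p | p
    · exact p
    · exfalso
      have h1 : ∀ y, u y = 0 := fun y =>
        (Finset.sum_eq_zero_iff_of_nonneg fun y _ => u0 y).1 p.symm y (Finset.mem_univ _)
      have h2 : v = 0 := by
        rw [← ue]
        ext k
        fin_cases k <;> simp [geo, h1]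
      rw [h2] at hv1
      simp at hv1
  let w : stdSimplex ℝ (Fin 6) := ⟨fun y => (∑ y, u y)⁻¹ * u y,
    fun y => mul_nonneg (inv_pos.2 us).le (u0 y), by
      rw [← Finset.mul_sum, inv_mul_cancel₀ us.ne']⟩
  obtain ⟨x, hx⟩ := exists_bar w (good_smul _ ug)
  refine ⟨Quot.mk _ x, Subtype.ext ?_⟩
  show ‖geo (bar x) 0‖⁻¹ • geo (bar x) 0 = v
  have h3 : geo (bar x) 0 = (∑ y, u y)⁻¹ • v := by
    rw [hx, ← ue, ← geo_smul]
    rfl
  rw [h3, norm_smul, hv1, smul_smul, Real.norm_eq_abs, abs_of_pos (inv_pos.2 us), mul_one,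
    inv_mul_cancel₀ (inv_pos.2 us).ne', one_smul]

instance : CompactSpace T8.Space := Quot.compactSpace

noncomputable def homeo : T8.Space ≃ₜ S3 :=
  Continuous.homeoOfEquivCompactToT2 (f := Equiv.ofBijective toS ⟨toS_inj, toS_surj⟩) cont_toS

theorem homeo_apply (x : T8.Space) : homeo x = toS x := rfl

end Pool.Agent.H367Z.Luo
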