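import Pool.Agent.H367Z.LuoDefs

set_option autoImplicit false

namespace Pool.Agent.H367Z.Luo

open Real MeasureTheory

theorem ae_sin_ne : ∀ᵐ s : ℝ, Real.sin s ≠ 0 := by
  have h : {s : ℝ | Real.sin s = 0}.Countable := by
    have : {s : ℝ | Real.sin s = 0} = Set.range (fun n : ℤ => (n : ℝ) * π) := by
      ext s
      simp only [Set.mem_ofPred_eq, Set.mem_range]
      exact Real.sin_eq_zero_iff
    rw [this]
    exact Set.countable_range _
  have h2 := h.measure_zero (volume : Measure ℝ)
  rw [ae_iff]
  simpa using h2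

theorem log_eq {s : ℝ} (h : Real.sin s ≠ 0) :
    Real.log |2 * Real.sin s| = Real.log 2 + Real.log (Real.sin s) := by
  rw [Real.log_abs, Real.log_mul two_ne_zero h]

theorem intInt (a b : ℝ) : IntervalIntegrable (fun s => Real.log |2 * Real.sin s|) volume a b := by
  have h1 : IntervalIntegrable (fun s => Real.log 2 + Real.log (Real.sin s)) volume a b :=
    (intervalIntegrable_const).add intervalIntegrable_log_sin
  refine h1.congr_ae ?_
  refine ae_restrict_of_ae ?_
  filter_upwards [ae_sin_ne] with s hs
  exact (log_eq hs).symm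

theorem lob_zero : lob 0 = 0 := by simp [lob]

theorem lob_neg (t : ℝ) : lob (-t) = -lob t := by
  unfold lob
  have h := intervalIntegral.integral_comp_neg (a := (0 : ℝ)) (b := t)
    (fun s => Real.log |2 * Real.sin s|)
  simp only [Real.sin_neg, mul_neg, abs_neg, neg_zero] at h
  rw [h, intervalIntegral.integral_symm]

theorem lob_half : lob (π / 2) = 0 := by
  unfold lob
  have h1 : ∫ s in (0 : ℝ)..(π / 2), Real.log |2 * Real.sin s|
      = ∫ s in (0 : ℝ)..(π / 2), (Real.log 2 + Real.log (Real.sin s)) := by
    refine intervalIntegral.integral_congr_ae ?_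
    filter_upwards [ae_sin_ne] with s hs _
    exact log_eq hs
  have h2 : IntervalIntegrable (fun s => Real.log (Real.sin s)) volume 0 (π / 2) :=
    intervalIntegrable_log_sin
  rw [h1, intervalIntegral.integral_add intervalIntegrable_const h2,
    integral_log_sin_zero_pi_div_two]
  simp
  ring

theorem lob_cont : Continuous lob :=
  (intervalIntegral.continuous_primitive intInt 0).neg

theorem lob_sub (a b : ℝ) : lob a - lob b = ∫ s in a..b, Real.log |2 * Real.sin s| := by
  unfold lob
  have := intervalIntegral.integral_add_adjacent_intervals (intInt 0 a) (intInt a b)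
  linarith

theorem log_pos_on {s : ℝ} (h1 : π / 4 < s) (h2 : s < π / 2) :
    0 < Real.log |2 * Real.sin s| := by
  have hp := Real.pi_pos
  have h3 : Real.sin (π / 6) < Real.sin s := by
    apply Real.sin_lt_sin_of_lt_of_le_pi_div_two <;> linarith
  rw [Real.sin_pi_div_six] at h3
  apply Real.log_pos
  rw [abs_of_pos (by linarith)]
  linarith

theorem lob_third_pos : 0 < lob (π / 3) := by
  have hp := Real.pi_pos
  have h := lob_sub (π / 3) (π / 2)
  rw [lob_half, sub_zero] at h
  rw [h]
  apply intervalIntegral.intervalIntegral_pos_of_pos_on (intInt _ _)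
  · intro s hs
    exact log_pos_on (by linarith [hs.1]) hs.2
  · linarith

theorem lob_third_lt : lob (π / 3) < lob (π / 4) := by
  have hp := Real.pi_pos
  have h := lob_sub (π / 4) (π / 3)
  have h2 : 0 < ∫ s in (π / 4)..(π / 3), Real.log |2 * Real.sin s| := by
    apply intervalIntegral.intervalIntegral_pos_of_pos_on (intInt _ _)
    · intro s hs
      exact log_pos_on hs.1 (by linarith [hs.2])
    · linarith
  linarith

theorem v3_pos : 0 < v3 := by
  unfold v3
  linarith [lob_third_pos]

theorem exists_angle : ∃ a : ℝ, 0 < a ∧ a < π / 2 ∧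
    2 * v3 < 8 * lob (π / 4) - 4 * (lob a + lob (π / 2 - a)) := by
  have hp := Real.pi_pos
  have hc : Continuous fun a : ℝ => 8 * lob (π / 4) - 4 * (lob a + lob (π / 2 - a)) := by
    have := lob_cont
    fun_prop
  have h0 : 2 * v3 < 8 * lob (π / 4) - 4 * (lob 0 + lob (π / 2 - 0)) := by
    rw [lob_zero, sub_zero, lob_half]
    unfold v3
    linarith [lob_third_pos, lob_third_lt]
  have h1 : ∀ᶠ a in nhds (0 : ℝ),
      2 * v3 < 8 * lob (π / 4) - 4 * (lob a + lob (π / 2 - a)) :=
    hc.continuousAt.eventually (lt_mem_nhds h0)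
  have h2 : ∀ᶠ a in nhds (0 : ℝ), a < π / 2 := gt_mem_nhds (by linarith)
  have h3 : ∀ᶠ a in nhdsWithin (0 : ℝ) (Set.Ioi 0), 0 < a := self_mem_nhdsWithin
  obtain ⟨a, ha, hb, hc⟩ := (h3.and ((h2.and h1).filter_mono nhdsWithin_le_nhds)).exists
  exact ⟨a, ha, hb, hc⟩

/-- shape parameter with prescribed angles -/
noncomputable def shape (x y w : ℝ) : ℂ :=
  ((Real.sin y / Real.sin w : ℝ) : ℂ) * Complex.exp (x * Complex.I)

theorem shape_rel {x y w : ℝ} (hx : Real.sin x ≠ 0) (hw : Real.sin w ≠ 0)
    (h : x + y + w = π ∨ x + y + w = -π) : shape y w x = 1 / (1 - shape x y w) := by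
  have hs : Real.sin x = Real.sin (y + w) := by
    rcases h with h | h
    · rw [show x = π - (y + w) by linarith, Real.sin_pi_sub]
    · rw [show x = (π - (y + w)) - 2 * π by linarith, Real.sin_sub_two_pi, Real.sin_pi_sub]
  have hc : Real.cos x = -Real.cos (y + w) := by
    rcases h with h | h
    · rw [show x = π - (y + w) by linarith, Real.cos_pi_sub]
    · rw [show x = (π - (y + w)) - 2 * π by linarith, Real.cos_sub_two_pi, Real.cos_pi_sub]
  rw [Real.sin_add] at hs
  rw [Real.cos_add] at hc
  have key : shape y w x * (1 - shape x y w) = 1 := by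
    unfold shape
    rw [Complex.exp_mul_I, Complex.exp_mul_I]
    rw [← Complex.ofReal_cos, ← Complex.ofReal_sin, ← Complex.ofReal_cos, ← Complex.ofReal_sin]
    have e1 := Real.sin_sq_add_cos_sq y
    apply Complex.ext
    · simp only [Complex.mul_re, Complex.add_re, Complex.ofReal_re, Complex.I_re, Complex.ofReal_im,
        Complex.I_im, Complex.add_im, Complex.mul_im, Complex.sub_re, Complex.one_re,
        Complex.sub_im, Complex.one_im]
      field_simp
      rw [hc, hs]
      linear_combination (Real.sin w * Real.sin y * Real.cos w) * e1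
    · simp only [Complex.mul_re, Complex.add_re, Complex.ofReal_re, Complex.I_re, Complex.ofReal_im,
        Complex.I_im, Complex.add_im, Complex.mul_im, Complex.sub_re, Complex.one_re,
        Complex.sub_im, Complex.one_im]
      field_simp
      rw [hc, hs]
      linear_combination (-Real.sin y * Real.sin w ^ 2) * e1
  exact eq_one_div_of_mul_eq_one_left key

theorem arg_shape {x y w : ℝ} (h : 0 < Real.sin y / Real.sin w) (h1 : -π < x) (h2 : x ≤ π) :
    Complex.arg (shape x y w) = x := by
  unfold shape
  rw [Complex.arg_real_mul _ h, Complex.arg_exp_mul_I]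
  exact (toIocMod_eq_self _).2 ⟨h1, by linarith⟩

end Pool.Agent.H367Z.Luo
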