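import Pool.Agent.H367Z.LuoEx
import Pool.Agent.H367Z.LuoLob

set_option autoImplicit false

namespace Pool.Agent.H367Z.Luo

open Equiv Real

/-! the Gromov norm is at most 2 -/

def L5 (a : Fin 6) : Fin 5 → Fin 6 := ![a, 0, 1, 2, 3]

noncomputable def bump (e : ℝ) (t : Simplex 4) : ℝ := e * (t 1 * t 2 * t 3 * t 4)

theorem cont_bump (e : ℝ) : Continuous (bump e) := by
  have h : ∀ k, Continuous fun t : Simplex 4 => t k := fun k =>
    (continuous_apply k).comp continuous_subtype_val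
  exact continuous_const.mul ((((h 1).mul (h 2)).mul (h 3)).mul (h 4))

theorem big_ne (a : Fin 6) (e : ℝ) (h : (a = 4 ∧ e = 1) ∨ (a = 5 ∧ e = -1)) (t : Simplex 4) :
    geo (stdSimplex.map (L5 a) t) (bump e t) ≠ 0 := by
  intro h0
  have e0 := congrArg (fun v : E4 => v 0) h0
  have e1 := congrArg (fun v : E4 => v 1) h0
  have e2 := congrArg (fun v : E4 => v 2) h0
  have e3 := congrArg (fun v : E4 => v 3) h0
  have hs := stdSimplex.sum_eq_one t
  rw [Fin.sum_univ_five] at hs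
  have a0 := stdSimplex.zero_le t 0
  have a1 := stdSimplex.zero_le t 1
  have a2 := stdSimplex.zero_le t 2
  have a3 := stdSimplex.zero_le t 3
  have a4 := stdSimplex.zero_le t 4
  have key : t 1 - t 4 = 0 → t 2 - t 4 = 0 → t 3 - t 4 = 0 →
      t 0 + t 1 * t 2 * t 3 * t 4 = 0 → False := by
    intro b1 b2 b3 b4
    have c1 : t 1 = t 4 := by linarith
    have c2 : t 2 = t 4 := by linarith
    have c3 : t 3 = t 4 := by linarith
    rw [c1, c2, c3] at b4 hs
    have d1 : 0 ≤ t 4 * t 4 * t 4 * t 4 := by positivity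
    have d2 : t 0 = 0 := by linarith
    have d3 : t 4 = 1 / 4 := by linarith
    rw [d2, d3] at b4
    norm_num at b4
  rcases h with ⟨rfl, rfl⟩ | ⟨rfl, rfl⟩
  · simp only [geo, bump, map_apply, Fin.sum_univ_five, L5] at e0 e1 e2 e3
    simp at e0 e1 e2 e3
    exact key e0 e1 e2 e3
  · simp only [geo, bump, map_apply, Fin.sum_univ_five, L5] at e0 e1 e2 e3
    simp at e0 e1 e2 e3
    exact key e0 e1 e2 (by linarith)

noncomputable def big (a : Fin 6) (e : ℝ) (h : (a = 4 ∧ e = 1) ∨ (a = 5 ∧ e = -1)) :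
    C(Simplex 4, T8.Space) :=
  ⟨fun t => homeo.symm (nrm _ (big_ne a e h t)), homeo.symm.continuous.comp
    (cont_nrm (cont_geo (stdSimplex.continuous_map _) (cont_bump e)) _)⟩

theorem nrm_congr {v v' : E4} (h : v = v') (h1 : v ≠ 0) (h2 : v' ≠ 0) : nrm v h1 = nrm v' h2 := by
  subst h
  rfl

theorem big_face (a : Fin 6) (e : ℝ) (h : (a = 4 ∧ e = 1) ∨ (a = 5 ∧ e = -1)) (k : Fin 5)
    (hk : k ≠ 0) (i : Fin 8) (q : Perm (Fin 4)) (hq : ∀ x, L5 a (k.succAbove x) = lab i (q x)) :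
    (big a e h).comp (simplexMap k.succAbove) = (T8.chi i).comp (simplexMap q) := by
  ext1 t
  show homeo.symm (nrm _ (big_ne a e h (stdSimplex.map k.succAbove t)))
    = Quot.mk T8.Glued (i, stdSimplex.map q t)
  rw [Homeomorph.symm_apply_eq]
  show _ = nrm (geo (bar (i, stdSimplex.map q t)) 0) (geo_ne _ (good_bar _))
  apply nrm_congr
  have h1 : stdSimplex.map k.succAbove t k = 0 :=
    map_zero_of _ _ _ fun x => Fin.succAbove_ne k x
  have h2 : bump e (stdSimplex.map k.succAbove t) = 0 := by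
    unfold bump
    fin_cases k
    · exact (hk rfl).elim
    · have : stdSimplex.map (Fin.succAbove 1) t (1 : Fin 5) = 0 := h1
      show e * (stdSimplex.map (Fin.succAbove 1) t (1 : Fin 5) * _ * _ * _) = 0
      rw [this]
      ring
    · have : stdSimplex.map (Fin.succAbove 2) t (2 : Fin 5) = 0 := h1
      show e * (_ * stdSimplex.map (Fin.succAbove 2) t (2 : Fin 5) * _ * _) = 0
      rw [this]
      ring
    · have : stdSimplex.map (Fin.succAbove 3) t (3 : Fin 5) = 0 := h1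
      show e * (_ * _ * stdSimplex.map (Fin.succAbove 3) t (3 : Fin 5) * _) = 0
      rw [this]
      ring
    · have : stdSimplex.map (Fin.succAbove 4) t (4 : Fin 5) = 0 := h1
      show e * (_ * _ * _ * stdSimplex.map (Fin.succAbove 4) t (4 : Fin 5)) = 0
      rw [this]
      ring
  rw [h2]
  congr 2
  unfold bar
  rw [stdSimplex.map_comp_apply, stdSimplex.map_comp_apply]
  congr 1
  funext x
  exact hq x

theorem alt_face_pos (a : Fin 6) (e : ℝ) (h : (a = 4 ∧ e = 1) ∨ (a = 5 ∧ e = -1)) (k : Fin 5)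
    (hk : k ≠ 0) (i : Fin 8) (hq : ∀ x, L5 a (k.succAbove x) = lab i x) :
    alt3 ((big a e h).comp (simplexMap k.succAbove)) = alt3 (T8.chi i) := by
  rw [big_face a e h k hk i 1 hq, alt3_perm]
  simp

theorem alt_face_neg (a : Fin 6) (e : ℝ) (h : (a = 4 ∧ e = 1) ∨ (a = 5 ∧ e = -1)) (k : Fin 5)
    (hk : k ≠ 0) (i : Fin 8) (hq : ∀ x, L5 a (k.succAbove x) = lab i (Equiv.swap 0 1 x)) :
    alt3 ((big a e h).comp (simplexMap k.succAbove)) = -alt3 (T8.chi i) := by
  rw [big_face a e h k hk i (Equiv.swap 0 1) hq, alt3_perm, Perm.sign_swap (by decide)]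
  simp

theorem gromov_le : T8.gromovNorm ≤ 2 := by
  obtain ⟨c, hc⟩ := alt3_bdry (big 4 1 (Or.inl ⟨rfl, rfl⟩))
  obtain ⟨d, hd⟩ := alt3_bdry (big 5 (-1) (Or.inr ⟨rfl, rfl⟩))
  rw [Fin.sum_univ_five] at hc hd
  rw [alt_face_neg _ _ _ 1 (by decide) 0 (by decide), alt_face_pos _ _ _ 2 (by decide) 1 (by decide),
    alt_face_neg _ _ _ 3 (by decide) 2 (by decide), alt_face_pos _ _ _ 4 (by decide) 3 (by decide)]
    at hc
  rw [alt_face_pos _ _ _ 1 (by decide) 4 (by decide), alt_face_neg _ _ _ 2 (by decide) 5 (by decide),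
    alt_face_pos _ _ _ 3 (by decide) 6 (by decide), alt_face_neg _ _ _ 4 (by decide) 7 (by decide)]
    at hd
  have hf : T8.fundCycle = ∑ i : Fin 8, alt3 (T8.chi i) := rfl
  rw [Fin.sum_univ_eight] at hf
  set A := alt3 ((big 4 1 (Or.inl ⟨rfl, rfl⟩)).comp (simplexMap (Fin.succAbove 0))) with hA
  set B := alt3 ((big 5 (-1) (Or.inr ⟨rfl, rfl⟩)).comp (simplexMap (Fin.succAbove 0))) with hB
  have key : T8.fundCycle + bdry T8.Space 3 (d - c) = B + (-1 : ℝ) • A := by
    rw [map_sub, hc, hd, hf]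
    simp only [Fin.val_zero, Fin.val_one, Fin.val_two, show ((3 : Fin 5) : ℕ) = 3 from rfl,
      show ((4 : Fin 5) : ℕ) = 4 from rfl]
    module
  have h1 : l1 (T8.fundCycle + bdry T8.Space 3 (d - c)) ≤ 2 := by
    rw [key]
    refine (l1_add _ _).trans ?_
    rw [l1_smul]
    have a1 : l1 A ≤ 1 := l1_alt3 _
    have a2 : l1 B ≤ 1 := l1_alt3 _
    norm_num
    linarith
  refine le_trans (csInf_le ⟨0, ?_⟩ ⟨d - c, rfl⟩) h1
  rintro r ⟨b, rfl⟩
  exact l1_nonneg _

/-! edges -/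

def elb (x : Fin 8 × Triangulation.TetEdge) : Finset (Fin 6) := x.2.1.image (lab x.1)

def estep (x : Fin 8 × Triangulation.TetEdge) (f : Fin 4) : Fin 8 × Triangulation.TetEdge :=
  (nb x.1 f, ⟨x.2.1.map (gl x.1 f).toEmbedding, by rw [Finset.card_map, x.2.2]⟩)

theorem elb_step (x : Fin 8 × Triangulation.TetEdge) (f : Fin 4) (h : f ∉ x.2.1) :
    elb (estep x f) = elb x := by
  unfold elb estep
  simp only [Finset.map_eq_image, Finset.image_image]
  refine Finset.image_congr fun k hk => ?_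
  exact lab_glue x.1 f k fun e => h (e ▸ hk)

theorem emk_step (x : Fin 8 × Triangulation.TetEdge) (f : Fin 4) (h : f ∉ x.2.1) :
    Quot.mk T8.EdgeGlued x = Quot.mk T8.EdgeGlued (estep x f) :=
  Quot.sound ⟨f, h, rfl, rfl⟩

theorem elb_notMem {x y : Fin 8 × Triangulation.TetEdge} (h : elb x = elb y) {f : Fin 4}
    (hf : ∀ k, lab y.1 k ≠ lab x.1 f) : f ∉ x.2.1 := by
  intro hx
  have h1 : lab x.1 f ∈ elb x := Finset.mem_image_of_mem _ hx
  rw [h] at h1
  obtain ⟨k, _, hk⟩ := Finset.mem_image.1 h1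
  exact hf k hk

theorem elb_same {x y : Fin 8 × Triangulation.TetEdge} (h : elb x = elb y) (h1 : x.1 = y.1) :
    x = y := by
  obtain ⟨i, s⟩ := x
  obtain ⟨j, t⟩ := y
  obtain rfl : i = j := h1
  have h2 : s.1 = t.1 := Finset.image_injective (fun k l hh => lab_inj i k l hh) h
  rw [Subtype.ext h2]

theorem emk_iff (x y : Fin 8 × Triangulation.TetEdge) :
    Quot.mk T8.EdgeGlued x = Quot.mk T8.EdgeGlued y ↔ elb x = elb y := by
  constructor
  · intro h
    let g : T8.Edge → Finset (Fin 6) := Quot.lift elb (by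
      rintro x y ⟨f, h0, h1, h2⟩
      have : y = estep x f := Prod.ext h1 (Subtype.ext h2)
      rw [this, elb_step x f h0])
    exact congrArg g h
  · intro h
    rcases conn x.1 y.1 with e | ⟨f, hf, e⟩ | ⟨f, f', hf, hf', e⟩
    · rw [elb_same h e]
    · have h0 := elb_notMem h hf
      rw [emk_step x f h0, elb_same ((elb_step x f h0).trans h) e]
    · have h0 := elb_notMem h hf
      have h1 := (elb_step x f h0).trans h
      have h2 := elb_notMem h1 hf'
      rw [emk_step x f h0, emk_step _ f' h2, elb_same ((elb_step _ f' h2).trans h1) e]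

def cnt (S : Finset (Fin 6)) (q : Fin 8 × Fin 3) : ℕ :=
  (if Finset.image (lab q.1) {0, q.2.succ} = S then 1 else 0) +
    (if Finset.image (lab q.1) {0, q.2.succ}ᶜ = S then 1 else 0)

theorem idx_eq (x : Fin 8 × Triangulation.TetEdge) (q : Fin 8 × Fin 3) :
    T8.idx (Quot.mk _ x) q = cnt (elb x) q := by
  classical
  have c1 : ∀ k : Fin 3, ({0, k.succ} : Finset (Fin 4)).card = 2 := by decide
  have c2 : ∀ k : Fin 3, ({0, k.succ}ᶜ : Finset (Fin 4)).card = 2 := by decide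
  have c3 : ∀ k : Fin 3, ({0, k.succ} : Finset (Fin 4)) ≠ {0, k.succ}ᶜ := by decide
  let s1 : Triangulation.TetEdge := ⟨_, c1 q.2⟩
  let s2 : Triangulation.TetEdge := ⟨_, c2 q.2⟩
  have hne : s1 ≠ s2 := fun h => c3 q.2 (congrArg Subtype.val h)
  unfold Triangulation.idx
  rw [Finset.card_filter, Finset.sum_eq_add s1 s2 hne]
  · have d1 : Triangulation.DisjointFromQuad q.2 s1 := Or.inl rfl
    have d2 : Triangulation.DisjointFromQuad q.2 s2 := Or.inr rfl
    exact congrArg₂ (· + ·)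
      (if_congr ((and_iff_right d1).trans (emk_iff (q.1, s1) x)) rfl rfl)
      (if_congr ((and_iff_right d2).trans (emk_iff (q.1, s2) x)) rfl rfl)
  · intro s _ hs
    rw [if_neg]
    rintro ⟨h | h, _⟩
    · exact hs.1 (Subtype.ext h)
    · exact hs.2 (Subtype.ext h)
  · simp
  · simp

def PP : Fin 8 → Fin 3 → ℤ :=
  ![![1, 1, 2], ![-2, 0, -2], ![2, 1, 1], ![0, -2, -2], ![1, 2, 1], ![0, -2, -2], ![2, 1, 1],
    ![-2, 0, -2]]

def RR : Fin 8 → Fin 3 → ℤ :=
  ![![0, 0, 0], ![1, -1, 0], ![0, 0, 0], ![-1, 0, 1], ![0, 0, 0], ![-1, 0, 1], ![0, 0, 0],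
    ![1, -1, 0]]

theorem cnt_sum : ∀ a b : Fin 6,
    (8 : ℤ) ∣ ∑ q : Fin 8 × Fin 3, (cnt {a, b} q : ℤ) * PP q.1 q.2 ∧
      ∑ q : Fin 8 × Fin 3, (cnt {a, b} q : ℤ) * RR q.1 q.2 = 0 := by
  decide +kernel

noncomputable def th (a : ℝ) (q : Fin 8 × Fin 3) : ℝ := PP q.1 q.2 * (π / 4) + RR q.1 q.2 * a

theorem th_cases (a : ℝ) (i : Fin 8) :
    (∀ k, th a (i, k) = π / 4 ∨ th a (i, k) = π / 2) ∧ th a (i, 0) + th a (i, 1) + th a (i, 2) = π ∨
    (∀ k, th a (i, k) = -a ∨ th a (i, k) = -(π / 2 - a) ∨ th a (i, k) = -(π / 2)) ∧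
      th a (i, 0) + th a (i, 1) + th a (i, 2) = -π := by
  have P : ∀ i, ((∀ k, (PP i k = 1 ∧ RR i k = 0) ∨ (PP i k = 2 ∧ RR i k = 0)) ∧
      PP i 0 + PP i 1 + PP i 2 = 4 ∧ RR i 0 + RR i 1 + RR i 2 = 0) ∨
      ((∀ k, (PP i k = 0 ∧ RR i k = -1) ∨ (PP i k = -2 ∧ RR i k = 1) ∨
        (PP i k = -2 ∧ RR i k = 0)) ∧
      PP i 0 + PP i 1 + PP i 2 = -4 ∧ RR i 0 + RR i 1 + RR i 2 = 0) := by decide
  have S : th a (i, 0) + th a (i, 1) + th a (i, 2)
      = ((PP i 0 + PP i 1 + PP i 2 : ℤ) : ℝ) * (π / 4) + ((RR i 0 + RR i 1 + RR i 2 : ℤ) : ℝ) * a := by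
    unfold th
    push_cast
    ring
  rcases P i with ⟨h1, h2, h3⟩ | ⟨h1, h2, h3⟩
  · left
    refine ⟨fun k => ?_, ?_⟩
    · rcases h1 k with ⟨p, r⟩ | ⟨p, r⟩
      · left
        simp [th, p, r]
      · right
        simp only [th, p, r]
        push_cast
        ring
    · rw [S, h2, h3]
      push_cast
      ring
  · right
    refine ⟨fun k => ?_, ?_⟩
    · rcases h1 k with ⟨p, r⟩ | ⟨p, r⟩ | ⟨p, r⟩
      · left
        simp [th, p, r]
      · right
        left
        simp only [th, p, r]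
        push_cast
        ring
      · right
        right
        simp only [th, p, r]
        push_cast
        ring
    · rw [S, h2, h3]
      push_cast
      ring

theorem th_sign {a : ℝ} (h0 : 0 < a) (h1 : a < π / 2) (i : Fin 8) :
    ((∀ k, 0 < th a (i, k) ∧ th a (i, k) < π) ∧ th a (i, 0) + th a (i, 1) + th a (i, 2) = π) ∨
    ((∀ k, -π < th a (i, k) ∧ th a (i, k) < 0) ∧
      th a (i, 0) + th a (i, 1) + th a (i, 2) = -π) := by
  have hp := Real.pi_pos
  rcases th_cases a i with ⟨h, s⟩ | ⟨h, s⟩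
  · left
    refine ⟨fun k => ?_, s⟩
    rcases h k with e | e <;> rw [e] <;> constructor <;> linarith
  · right
    refine ⟨fun k => ?_, s⟩
    rcases h k with e | e | e <;> rw [e] <;> constructor <;> linarith

noncomputable def zz (a : ℝ) (c : Fin 3) (q : Fin 8 × Fin 3) : ℂ :=
  shape (th a q) (th a (q.1, q.2 + c)) (th a (q.1, q.2 + c + c))

theorem ratio_pos {a : ℝ} (h0 : 0 < a) (h1 : a < π / 2) (i : Fin 8) (k l : Fin 3) :
    0 < Real.sin (th a (i, k)) / Real.sin (th a (i, l)) := by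
  rcases th_sign h0 h1 i with ⟨h, _⟩ | ⟨h, _⟩
  · exact div_pos (Real.sin_pos_of_pos_of_lt_pi (h k).1 (h k).2)
      (Real.sin_pos_of_pos_of_lt_pi (h l).1 (h l).2)
  · exact div_pos_of_neg_of_neg (Real.sin_neg_of_neg_of_neg_pi_lt (h k).2 (h k).1)
      (Real.sin_neg_of_neg_of_neg_pi_lt (h l).2 (h l).1)

theorem sin_ne {a : ℝ} (h0 : 0 < a) (h1 : a < π / 2) (i : Fin 8) (k : Fin 3) :
    Real.sin (th a (i, k)) ≠ 0 := by
  intro h
  have := ratio_pos h0 h1 i k k
  rw [h] at this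
  simp at this

theorem arg_zz {a : ℝ} (h0 : 0 < a) (h1 : a < π / 2) (c : Fin 3) (q : Fin 8 × Fin 3) :
    Complex.arg (zz a c q) = th a q := by
  have hp := Real.pi_pos
  apply arg_shape (ratio_pos h0 h1 _ _ _)
  · rcases th_sign h0 h1 q.1 with ⟨h, _⟩ | ⟨h, _⟩
    · linarith [(h q.2).1]
    · exact (h q.2).1
  · rcases th_sign h0 h1 q.1 with ⟨h, _⟩ | ⟨h, _⟩
    · exact (h q.2).2.le
    · linarith [(h q.2).2]

theorem zz_mem {a : ℝ} (h0 : 0 < a) (h1 : a < π / 2) (c : Fin 3) (hc : c ≠ 0) :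
    zz a c ∈ T8.W c := by
  constructor
  · rintro ⟨i, k⟩
    have e3 : ∀ c k : Fin 3, k + c + c + c = k := by decide
    show shape (th a (i, k + c)) (th a (i, k + c + c)) (th a (i, k + c + c + c)) = _
    rw [e3]
    apply shape_rel (sin_ne h0 h1 _ _) (sin_ne h0 h1 _ _)
    have hs : th a (i, k) + th a (i, k + c) + th a (i, k + c + c)
        = th a (i, 0) + th a (i, 1) + th a (i, 2) := by
      have : ∀ g : Fin 3 → ℝ, g k + g (k + c) + g (k + c + c) = g 0 + g 1 + g 2 := by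
        intro g
        fin_cases c
        · exact (hc rfl).elim
        · fin_cases k <;> simp <;> ring
        · fin_cases k <;> simp <;> ring
      exact this fun k => th a (i, k)
    show th a (i, k) + th a (i, k + c) + th a (i, k + c + c) = π ∨
      th a (i, k) + th a (i, k + c) + th a (i, k + c + c) = -π
    rw [hs]
    exact (th_sign h0 h1 i).imp And.right And.right
  · rintro ⟨x⟩
    obtain ⟨u, v, _, huv⟩ := Finset.card_eq_two.1 x.2.2
    have he : elb x = {lab x.1 u, lab x.1 v} := by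
      unfold elb
      rw [huv]
      simp
    obtain ⟨⟨m, hm⟩, hr⟩ := cnt_sum (lab x.1 u) (lab x.1 v)
    rw [← he] at hm hr
    refine ⟨∏ q : Fin 8 × Fin 3, (Real.sin (th a (q.1, q.2 + c)) /
      Real.sin (th a (q.1, q.2 + c + c))) ^ cnt (elb x) q,
      Finset.prod_pos fun q _ => pow_pos (ratio_pos h0 h1 _ _ _) _, ?_⟩
    have hi : ∀ q : Fin 8 × Fin 3, T8.idx (Quot.mk T8.EdgeGlued x) q = cnt (elb x) q := idx_eq x
    show ∏ q : Fin 8 × Fin 3, zz a c q ^ T8.idx (Quot.mk T8.EdgeGlued x) q = _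
    rw [Finset.prod_congr rfl fun q _ => congrArg (zz a c q ^ ·) (hi q)]
    unfold zz shape
    simp only [mul_pow, Finset.prod_mul_distrib, ← Complex.exp_nat_mul, ← Complex.exp_sum]
    have hs : ∑ q : Fin 8 × Fin 3, (cnt (elb x) q : ℂ) * ((th a q : ℂ) * Complex.I)
        = m * (2 * π * Complex.I) := by
      have h2 : ∑ q : Fin 8 × Fin 3, (cnt (elb x) q : ℝ) * th a q = m * (2 * π) := by
        have h3 : ∑ q : Fin 8 × Fin 3, (cnt (elb x) q : ℝ) * th a q
            = ((∑ q : Fin 8 × Fin 3, (cnt (elb x) q : ℤ) * PP q.1 q.2 : ℤ) : ℝ) * (π / 4)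
              + ((∑ q : Fin 8 × Fin 3, (cnt (elb x) q : ℤ) * RR q.1 q.2 : ℤ) : ℝ) * a := by
          push_cast
          rw [Finset.sum_mul, Finset.sum_mul, ← Finset.sum_add_distrib]
          refine Finset.sum_congr rfl fun q _ => ?_
          unfold th
          ring
        rw [h3, hm, hr]
        push_cast
        ring
      have h4 := congrArg (fun r : ℝ => (r : ℂ) * Complex.I) h2
      simp only [Complex.ofReal_sum, Complex.ofReal_mul, Complex.ofReal_natCast,
        Complex.ofReal_intCast, Complex.ofReal_ofNat, Finset.sum_mul] at h4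
      simp only [mul_assoc] at h4 ⊢
      exact h4
    rw [hs, Complex.exp_int_mul_two_pi_mul_I, mul_one]
    push_cast
    rfl

theorem vol_zz {a : ℝ} (h0 : 0 < a) (h1 : a < π / 2) (c : Fin 3) :
    vol (T := T8) (zz a c) = 8 * lob (π / 4) - 4 * (lob a + lob (π / 2 - a)) := by
  unfold vol
  simp only [arg_zz h0 h1]
  rw [Fintype.sum_prod_type, Fin.sum_univ_eight]
  simp only [Fin.sum_univ_three, th, PP, RR]
  have e1 : (2 : ℝ) * (π / 4) = π / 2 := by ring
  have e2 : -(π / 2) + a = -(π / 2 - a) := by ring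
  simp [e1, e2, lob_neg, lob_half, -neg_sub]
  ring

theorem main (c : Fin 3) (hc : c ≠ 0) : ∃ z ∈ T8.W c, 2 * v3 < vol z ∧
    v3 * T8.gromovNorm < vol z := by
  obtain ⟨a, h0, h1, h2⟩ := exists_angle
  refine ⟨zz a c, zz_mem h0 h1 c hc, ?_, ?_⟩
  · rw [vol_zz h0 h1]
    exact h2
  · rw [vol_zz h0 h1]
    have := mul_le_mul_of_nonneg_left gromov_le v3_pos.le
    linarith

end Pool.Agent.H367Z.Luo
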